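import Mathlib
import Pool.Agent.Y152.RP.Stm

/-!
Project RP (radical parameters): the assembly of the large order case (job RP-LARGE).
-/

set_option autoImplicit false

namespace Pool.Agent.Y487.RP

open Polynomial Pool.Agent.Y152 Pool.Agent.Y152.RP

theorem natDegree_ne {H : ℤ[X]} (hH : Irreducible H) {τ : ℂ} (h1 : aeval τ H = 0) :
    H.natDegree ≠ 0 := by
  intro h
  have h2 := Polynomial.eq_C_of_natDegree_eq_zero h
  rw [h2, aeval_C, eq_intCast, Int.cast_eq_zero] at h1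
  apply hH.ne_zero
  rw [h2, h1, C_0]

theorem dvd_of_root {H P : ℤ[X]} (hH : Irreducible H) {τ : ℂ} (h1 : aeval τ H = 0)
    (h2 : aeval τ P = 0) : H ∣ P := by
  have hprim := hH.isPrimitive (natDegree_ne hH h1)
  have hirr : Irreducible (H.map (Int.castRingHom ℚ)) :=
    (IsPrimitive.Int.irreducible_iff_irreducible_map_cast hprim).1 hH
  rw [IsPrimitive.Int.dvd_iff_map_cast_dvd_map_cast H P hprim]
  have e : Int.castRingHom ℚ = algebraMap ℤ ℚ := rfl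
  have h3 : aeval τ (H.map (Int.castRingHom ℚ)) = 0 := by
    rw [e, aeval_map_algebraMap]; exact h1
  have h4 := minpoly.eq_of_irreducible hirr h3
  have h5 : minpoly ℚ τ ∣ P.map (Int.castRingHom ℚ) := by
    apply minpoly.dvd
    rw [e, aeval_map_algebraMap]; exact h2
  exact dvd_trans ⟨_, h4.symm⟩ h5

/-- the homogenized polynomial in `X ^ 2` -/
noncomputable def hp (G : ℤ[X]) (a : ℚ) : ℤ[X] :=
  ∑ i ∈ Finset.range (G.natDegree + 1),
    C (G.coeff i * a.num ^ i * (a.den : ℤ) ^ (G.natDegree - i)) * X ^ (2 * i)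

theorem hp_one (G : ℤ[X]) (a : ℚ) : (hp G a).eval 1 = BD.Nv G a := by
  unfold hp BD.Nv
  rw [eval_finsetSum]
  refine Finset.sum_congr rfl fun i _ => ?_
  simp

theorem hp_root (G : ℤ[X]) (a : ℚ) (ω τ : ℂ) (h : aeval ω G = 0)
    (h2 : (a.num : ℂ) * τ ^ 2 = (a.den : ℂ) * ω) : aeval τ (hp G a) = 0 := by
  have h3 : aeval τ (hp G a) = (a.den : ℂ) ^ G.natDegree * aeval ω G := by
    unfold hp
    rw [map_sum, aeval_eq_sum_range (p := G), Finset.mul_sum]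
    refine Finset.sum_congr rfl fun i hi => ?_
    rw [Finset.mem_range] at hi
    have h1 : (a.den : ℂ) ^ G.natDegree = (a.den : ℂ) ^ i * (a.den : ℂ) ^ (G.natDegree - i) := by
      rw [← pow_add]
      congr 1
      omega
    have h4 : (a.num : ℂ) ^ i * τ ^ (2 * i) = (a.den : ℂ) ^ i * ω ^ i := by
      rw [pow_mul, ← mul_pow, ← mul_pow, h2]
    rw [map_mul, aeval_C, map_pow, aeval_X, h1]
    simp only [zsmul_eq_mul, eq_intCast]
    push_cast
    linear_combination ((G.coeff i : ℂ) * (a.den : ℂ) ^ (G.natDegree - i)) * h4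
  rw [h3, h, mul_zero]

/-- the values of a polynomial with simple roots -/
theorem eval_prod {H : ℤ[X]} (hc : H.natDegree = (H.aroots ℂ).toFinset.card) (x : ℤ) :
    ((H.eval x : ℤ) : ℂ) = (H.leadingCoeff : ℂ) * ∏ z ∈ (H.aroots ℂ).toFinset, ((x : ℂ) - z) := by
  have hs : (H.map (algebraMap ℤ ℂ)).Splits := IsAlgClosed.splits _
  have h1 : (H.map (algebraMap ℤ ℂ)).eval (x : ℂ) = (H.map (algebraMap ℤ ℂ)).leadingCoeff *
      ((H.aroots ℂ).map ((x : ℂ) - ·)).prod := hs.eval_eq_prod_roots (x : ℂ)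
  have hnd : (H.map (algebraMap ℤ ℂ)).natDegree = H.natDegree :=
    natDegree_map_eq_of_injective (RingHom.injective_int (algebraMap ℤ ℂ)) H
  have hcard : (H.aroots ℂ).toFinset.card = (H.aroots ℂ).card := by
    rw [← hc, ← hnd]
    exact hs.natDegree_eq_card_roots
  have hno := Multiset.toFinset_card_eq_card_iff_nodup.1 hcard
  have h2 : ((H.aroots ℂ).map ((x : ℂ) - ·)).prod =
      ∏ z ∈ (H.aroots ℂ).toFinset, ((x : ℂ) - z) := by
    rw [Finset.prod, Multiset.toFinset_val, Multiset.dedup_eq_self.2 hno]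
  rw [h2] at h1
  have h3 : (H.map (algebraMap ℤ ℂ)).eval (x : ℂ) = ((H.eval x : ℤ) : ℂ) := by
    rw [eval_map, show ((x : ℤ) : ℂ) = algebraMap ℤ ℂ x from rfl, eval₂_at_apply]
    rfl
  have h4 : (H.map (algebraMap ℤ ℂ)).leadingCoeff = (H.leadingCoeff : ℂ) :=
    leadingCoeff_map_of_injective (RingHom.injective_int (algebraMap ℤ ℂ)) H
  rw [← h3, h1, h4]

/-- the assembly of the large order case -/
theorem large : LogSumStm → PowStm → TotStm → CycStm → LargeStm := by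
  intro hlog hpow htot hcyc D
  obtain ⟨N, hN⟩ := htot (15 * (8 + (2 * D.factorial + 1)))
  refine ⟨N + D + 3, fun n hn ω τ q hω hq hτ hbad => ?_⟩
  by_contra hq1
  obtain ⟨H, hH, hHτ, hsmo⟩ := hbad
  obtain ⟨hφ, hcard, hnorm, hs1, hs2⟩ := hpow n ω τ q (by omega) hω hq hτ H hH hHτ
  -- the numbers u and v
  obtain ⟨u, hu⟩ : ∃ u : ℕ, u = q.num.natAbs := ⟨_, rfl⟩
  obtain ⟨v, hv⟩ : ∃ v : ℕ, v = q.den := ⟨_, rfl⟩
  have hqn : 0 < q.num := Rat.num_pos.2 hq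
  have hu0 : 0 < u := by rw [hu]; omega
  have hv0 : 0 < v := by rw [hv]; exact q.den_pos
  have hunum : (u : ℤ) = q.num := by rw [hu]; omega
  have hquv : (q : ℝ) = (u : ℝ) / v := by
    have h1 : (q : ℝ) = (q.num : ℝ) / (q.den : ℝ) := by exact_mod_cast (Rat.num_div_den q).symm
    rw [h1, ← hunum, hv]
    push_cast
    rfl
  have huv : u ≠ v := by
    intro h
    apply hq1
    have h1 := Rat.num_div_den q
    rw [← hunum, ← hv, h] at h1
    rw [← h1]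
    have : (v : ℚ) ≠ 0 := by exact_mod_cast hv0.ne'
    push_cast
    field_simp
  have hcop : Nat.Coprime u v := by rw [hu, hv]; exact q.reduced
  have hu' : (0 : ℝ) < u := by exact_mod_cast hu0
  have hv' : (0 : ℝ) < v := by exact_mod_cast hv0
  have hq' : (0 : ℝ) < (q : ℝ) := by exact_mod_cast hq
  -- divisibility
  have hle : (H.eval 1).natAbs ≤ D.factorial := by
    refine hcyc D n q⁻¹ (inv_pos.2 hq) (by omega) (by omega) (H.eval 1) ?_ hsmo
    rw [← hp_one]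
    refine eval_dvd (dvd_of_root hH hHτ ?_)
    refine hp_root _ _ ω τ ?_ ?_
    · have h1 := hω.isRoot_cyclotomic (R := ℂ) (by omega)
      rw [← map_cyclotomic_int, IsRoot.def, eval_map] at h1
      rw [aeval_def]
      exact h1
    · have h1 : ((q⁻¹ : ℚ) : ℂ) * (((q⁻¹ : ℚ).den : ℕ) : ℂ) = (((q⁻¹ : ℚ).num : ℤ) : ℂ) := by
        exact_mod_cast Rat.mul_den_eq_num q⁻¹
      have h2 : (q : ℂ) ≠ 0 := by exact_mod_cast hq.ne'
      rw [hτ, ← h1]
      push_cast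
      field_simp
  -- the product formulas
  obtain ⟨R, hR⟩ : ∃ R : Finset ℂ, R = (H.aroots ℂ).toFinset := ⟨_, rfl⟩
  have e1 := eval_prod hcard 1
  have e0 := eval_prod hcard 0
  rw [← hR] at e1 e0 hcard hnorm hs1 hs2
  obtain ⟨lc, hlc⟩ : ∃ lc : ℤ, lc = H.leadingCoeff := ⟨_, rfl⟩
  have hlc0 : lc ≠ 0 := by rw [hlc]; exact leadingCoeff_ne_zero.2 hH.ne_zero
  rw [← hlc] at e1 e0
  obtain ⟨m, hm⟩ : ∃ m : ℕ, m = R.card := ⟨_, rfl⟩
  have n1 : ((H.eval 1 : ℤ) : ℝ) ^ 2 = (lc : ℝ) ^ 2 * ∏ z ∈ R, ‖1 - z‖ ^ 2 := by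
    have h1 := congrArg (fun x : ℂ => ‖x‖ ^ 2) e1
    simp only [norm_mul, norm_prod, mul_pow, Complex.norm_intCast, sq_abs, Int.cast_one] at h1
    rw [h1, Finset.prod_pow]
  have n0 : ((H.eval 0 : ℤ) : ℝ) ^ 2 = (lc : ℝ) ^ 2 * (q : ℝ) ^ m := by
    have h1 := congrArg (fun x : ℂ => ‖x‖ ^ 2) e0
    simp only [norm_mul, norm_prod, mul_pow, Complex.norm_intCast, sq_abs, Int.cast_zero,
      zero_sub, norm_neg] at h1
    rw [h1, ← Finset.prod_pow, Finset.prod_congr rfl hnorm, Finset.prod_const, hm]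
  -- the leading coefficient
  have hlcv : (v : ℝ) ^ m ≤ (lc : ℝ) ^ 2 := by
    have h1 : ((H.eval 0 : ℤ) : ℝ) ^ 2 * (v : ℝ) ^ m = (lc : ℝ) ^ 2 * (u : ℝ) ^ m := by
      rw [n0, hquv, div_pow, mul_assoc]
      congr 1
      rw [div_mul_cancel₀]
      positivity
    have h2 : (H.eval 0) ^ 2 * (v : ℤ) ^ m = lc ^ 2 * (u : ℤ) ^ m := by exact_mod_cast h1
    have h3 : (v : ℤ) ^ m ∣ lc ^ 2 * (u : ℤ) ^ m := ⟨H.eval 0 ^ 2, by rw [← h2]; ring⟩
    have h4 : IsCoprime ((v : ℤ) ^ m) ((u : ℤ) ^ m) :=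
      (Nat.isCoprime_iff_coprime.2 hcop.symm).pow
    have h5 := h4.dvd_of_dvd_mul_right h3
    have h6 := Int.le_of_dvd (by positivity) h5
    exact_mod_cast h6
  -- the unit vectors
  have hsq : 0 < Real.sqrt (q : ℝ) := Real.sqrt_pos.2 hq'
  have hsqc : ((Real.sqrt (q : ℝ) : ℝ) : ℂ) ≠ 0 := by exact_mod_cast hsq.ne'
  have hzn : ∀ z ∈ R, ‖z‖ = Real.sqrt q := by
    intro z hz
    rw [← hnorm z hz, Real.sqrt_sq (norm_nonneg _)]
  have hinj : Set.InjOn (fun z : ℂ => z / ((Real.sqrt (q : ℝ) : ℝ) : ℂ)) (R : Set ℂ) := by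
    intro a _ b _ hab
    exact (div_left_inj' hsqc).1 hab
  have key := hlog (R.image fun z => z / ((Real.sqrt (q : ℝ) : ℝ) : ℂ)) (by
    intro w hw
    rw [Finset.mem_image] at hw
    obtain ⟨z, hz, rfl⟩ := hw
    rw [norm_div, hzn z hz, Complex.norm_real, Real.norm_of_nonneg hsq.le, div_self hsq.ne'])
    u v hu0 hv0 huv
  rw [Finset.card_image_of_injOn hinj, Finset.sum_image hinj, Finset.sum_image hinj,
    Finset.sum_image hinj, ← hm] at key
  -- the power sums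
  have hq2 : Real.sqrt (q : ℝ) ^ 2 = q := Real.sq_sqrt hq'.le
  have p1 : ‖∑ z ∈ R, z / ((Real.sqrt (q : ℝ) : ℝ) : ℂ)‖ ≤ 2 * Real.sqrt n := by
    rw [← Finset.sum_div, norm_div, Complex.norm_real, Real.norm_of_nonneg hsq.le,
      div_le_iff₀ hsq]
    exact hs1
  have p2 : ‖∑ z ∈ R, (z / ((Real.sqrt (q : ℝ) : ℝ) : ℂ)) ^ 2‖ ≤ 2 * Real.sqrt n := by
    have h1 : ∑ z ∈ R, (z / ((Real.sqrt (q : ℝ) : ℝ) : ℂ)) ^ 2 =
        (∑ z ∈ R, z ^ 2) / (((Real.sqrt (q : ℝ) : ℝ) : ℂ)) ^ 2 := by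
      rw [Finset.sum_div]
      exact Finset.sum_congr rfl fun z _ => div_pow _ _ _
    rw [h1, norm_div, norm_pow, Complex.norm_real, Real.norm_of_nonneg hsq.le, hq2,
      div_le_iff₀ hq']
    exact hs2
  -- the sum of logarithms
  have hz1 : ∀ z ∈ R, (v : ℝ) * ‖1 - z‖ ^ 2 ≠ 0 := by
    intro z hz h
    rcases mul_eq_zero.1 h with h1 | h1
    · exact hv'.ne' h1
    · have h2 : (1 : ℂ) - z = 0 := norm_eq_zero.1 (pow_eq_zero_iff two_ne_zero |>.1 h1)
      have h3 : z = 1 := (sub_eq_zero.1 h2).symm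
      have h4 := hnorm z hz
      rw [h3, norm_one, one_pow] at h4
      apply hq1
      exact_mod_cast h4.symm
  have hterm : ∀ z ∈ R, Real.log (‖((Real.sqrt v : ℝ) : ℂ) - ((Real.sqrt u : ℝ) : ℂ) *
      (z / ((Real.sqrt (q : ℝ) : ℝ) : ℂ))‖ ^ 2) = Real.log ((v : ℝ) * ‖1 - z‖ ^ 2) := by
    intro z _
    congr 1
    have h1 : Real.sqrt (q : ℝ) = Real.sqrt u / Real.sqrt v := by
      rw [hquv, Real.sqrt_div hu'.le]
    have hsu : Real.sqrt u ≠ 0 := (Real.sqrt_pos.2 hu').ne'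
    have hsv : Real.sqrt v ≠ 0 := (Real.sqrt_pos.2 hv').ne'
    have hsuc : ((Real.sqrt u : ℝ) : ℂ) ≠ 0 := by exact_mod_cast hsu
    have hsvc : ((Real.sqrt v : ℝ) : ℂ) ≠ 0 := by exact_mod_cast hsv
    have h2 : ((Real.sqrt v : ℝ) : ℂ) - ((Real.sqrt u : ℝ) : ℂ) *
        (z / ((Real.sqrt (q : ℝ) : ℝ) : ℂ)) = ((Real.sqrt v : ℝ) : ℂ) * (1 - z) := by
      rw [h1]
      push_cast
      field_simp
    rw [h2, norm_mul, mul_pow, Complex.norm_real, Real.norm_of_nonneg (Real.sqrt_nonneg _),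
      Real.sq_sqrt hv'.le]
  rw [Finset.sum_congr rfl hterm, ← Real.log_prod hz1, Finset.prod_mul_distrib,
    Finset.prod_const, ← hm] at key
  have hprod0 : 0 < ∏ z ∈ R, ‖1 - z‖ ^ 2 := by
    refine Finset.prod_pos fun z hz => ?_
    have h1 := hz1 z hz
    have h2 : ‖1 - z‖ ≠ 0 := by
      intro h
      apply h1
      rw [h]; ring
    positivity
  have hup : Real.log ((v : ℝ) ^ m * ∏ z ∈ R, ‖1 - z‖ ^ 2) ≤ 2 * (D.factorial : ℝ) := by
    have h1 : (v : ℝ) ^ m * ∏ z ∈ R, ‖1 - z‖ ^ 2 ≤ (D.factorial : ℝ) ^ 2 := by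
      refine (mul_le_mul_of_nonneg_right hlcv hprod0.le).trans ?_
      rw [← n1, ← sq_abs]
      have h2 : |((H.eval 1 : ℤ) : ℝ)| ≤ (D.factorial : ℝ) := by
        have h3 : (((H.eval 1).natAbs : ℕ) : ℝ) ≤ (D.factorial : ℝ) := by exact_mod_cast hle
        rwa [Nat.cast_natAbs, Int.cast_abs] at h3
      exact pow_le_pow_left₀ (abs_nonneg _) h2 2
    have h2 := Real.log_le_log (by positivity) h1
    rw [Real.log_pow] at h2
    have h3 := Real.log_le_self (Nat.cast_nonneg D.factorial : (0 : ℝ) ≤ (D.factorial : ℝ))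
    push_cast at h2
    linarith
  -- the final estimate
  have hx3 : (3 : ℝ) ≤ (u : ℝ) + v := by
    have : 3 ≤ u + v := by omega
    exact_mod_cast this
  obtain ⟨x, hx⟩ : ∃ x : ℝ, x = (u : ℝ) + v := ⟨_, rfl⟩
  rw [← hx] at key hx3
  have hL1 : 1 ≤ Real.log (2 * x) := by
    rw [Real.le_log_iff_exp_le (by linarith)]
    have := Real.exp_one_lt_d9
    linarith
  have hL5 : Real.log (2 * x) ≤ 5 * Real.log (x / 2) := by
    have h1 : (5 : ℝ) * Real.log (x / 2) = Real.log ((x / 2) ^ 5) := by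
      rw [Real.log_pow]; norm_num
    rw [h1]
    apply Real.log_le_log (by linarith)
    have h2 : (9 : ℝ) ≤ x ^ 2 := by nlinarith
    have h3 : (81 : ℝ) ≤ x ^ 4 := by nlinarith [sq_nonneg (x ^ 2)]
    have h4 : (x / 2) ^ 5 = x * x ^ 4 / 32 := by ring
    rw [h4]
    nlinarith
  have hn1 : (1 : ℝ) ≤ Real.sqrt n := by
    rw [Real.one_le_sqrt]
    have : 1 ≤ n := by omega
    exact_mod_cast this
  have hmφ : (15 * (8 + (2 * D.factorial + 1)) : ℝ) * Real.sqrt n ≤ m := by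
    have h1 := hN n (by omega)
    have h2 : (Nat.totient n : ℝ) ≤ m := by
      rw [hm, ← hcard]
      exact_mod_cast hφ
    push_cast at h1
    linarith
  have hm0 : (0 : ℝ) ≤ m := Nat.cast_nonneg m
  have hsum : Real.log (2 * x) * (‖∑ z ∈ R, z / ((Real.sqrt (q : ℝ) : ℝ) : ℂ)‖ +
      ‖∑ z ∈ R, (z / ((Real.sqrt (q : ℝ) : ℝ) : ℂ)) ^ 2‖) ≤
      Real.log (2 * x) * (4 * Real.sqrt n) :=
    mul_le_mul_of_nonneg_left (by linarith) (by linarith)
  have hA : (m : ℝ) / 15 * Real.log (2 * x) ≤ (m : ℝ) / 3 * Real.log (x / 2) := by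
    have := mul_le_mul_of_nonneg_left hL5 (show (0 : ℝ) ≤ (m : ℝ) / 15 by positivity)
    linarith
  have hB : Real.log (2 * x) * ((m : ℝ) / 15 - 8 * Real.sqrt n) ≤ 2 * (D.factorial : ℝ) := by
    have : Real.log (2 * x) * ((m : ℝ) / 15 - 8 * Real.sqrt n) =
      (m : ℝ) / 15 * Real.log (2 * x) - 2 * (Real.log (2 * x) * (4 * Real.sqrt n)) := by ring
    rw [this]
    linarith
  have hC : (2 * D.factorial + 1 : ℝ) * Real.sqrt n ≤ (m : ℝ) / 15 - 8 * Real.sqrt n := by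
    linarith
  have hF : (0 : ℝ) ≤ (D.factorial : ℝ) := Nat.cast_nonneg _
  have hE : (2 * D.factorial + 1 : ℝ) ≤ (2 * D.factorial + 1 : ℝ) * Real.sqrt n :=
    le_mul_of_one_le_right (by linarith) hn1
  have hG : (m : ℝ) / 15 - 8 * Real.sqrt n ≤
      Real.log (2 * x) * ((m : ℝ) / 15 - 8 * Real.sqrt n) :=
    le_mul_of_one_le_left (by linarith) hL1
  linarith

end Pool.Agent.Y487.RP
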